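import Pool.Agent.H10x.NL.Sharp
import Pool.Agent.H10x.NL.Fis

/-!
# How many NOT gates do small circuits for CLIQUE need?

The NP-complete problem CLIQUE: the input is a graph with the vertices `0, ..., n - 1`, given by its
`N = n (n - 1) / 2` bits, and the question is whether there is a clique of size `k`.

For a circuit with any number of non-monotone gates, let us feed the inputs one after the other: in an
increasing sequence of graphs, the number of steps that change what some non-monotone gate sees is at
most `N`, and it is at most `2 ^ t - 1` if there are `t` NOT gates. The maximum of this number over the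
increasing sequences is the alternation number of the circuit.

* If the alternation number is at most `N / (log n) ^ C`, then the circuit has superpolynomial size, and
  it has size `2 ^ (n ^ δ)` if the alternation number is at most `N ^ (1 - ε)`. This holds for
  randomised circuits of monotone real gates with arbitrary further gates.
* In particular, monotone circuits of polynomial size cannot reduce the `N` input bits to
  `N / (log n) ^ C` bits from which one can tell whether there is a clique of size `k`.
* So Boolean circuits for CLIQUE (one output bit) with `log N - C log log N` NOT gates have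
  superpolynomial size. By the theorem of Markov and Fischer, also proved here, `⌈log (N + 1)⌉` NOT
  gates are always enough, up to a polynomial increase of the size. So a superpolynomial lower bound for
  `C log log N + 1` more NOT gates would be one for all circuits, and imply that `P` is not `NP`.

The proof: a constraint satisfaction problem is encoded by cliques in such a way that `N / (log n) ^ C`
encodings (blocks) with pairwise at most one common vertex are placed in one graph, and no clique of the
required size uses edges of several blocks (a random selection of the lines of an affine plane). Filling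
the blocks one after the other, there is one for which the non-monotone gates rarely change, and the
lower bound for circuits of monotone real gates applies to it.
-/

set_option autoImplicit false

namespace Pool.Agent.Results.MP_71c844_lc.AlternationNumber

open Finset

/-- The pairs of vertices, where the vertices are `0, ..., n - 1`. -/
abbrev Edge (n : ℕ) : Type := {e : Finset (Fin n) // e.card = 2}

/-- The graph `x` (with the edges `e` such that `x e = true`) has a clique with `k` vertices. -/
def HasClique {n : ℕ} (k : ℕ) (x : Edge n → Bool) : Prop :=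
  ∃ S : Finset (Fin n), S.card = k ∧ ∀ e : Edge n, e.1 ⊆ S → x e = true

/-- A circuit with the gates `0, ..., s - 1` whose inputs are the bits of the elements of `E`. Gate `i`
has `w i` inputs, namely `a i j`, each a bit (`0` or `1`) or an earlier gate; it computes a function
`op i` of real numbers, and its value on the input `x` is `val x i`. The circuit accepts if the value of
gate `out` is at least `τ`. The function `op i` is nondecreasing and `w i ≤ 2`, except for the gates in
the set `further`, for which it may be any function of the truth values of `θ i j ≤ z j`, where `z j`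
is the `j`-th input of the gate (NOT gates, or truth tables with any number of inputs). -/
structure RealCircuit (E : Type) where
  s : ℕ
  further : Finset (Fin s)
  w : Fin s → ℕ
  a : (i : Fin s) → Fin (w i) → E ⊕ Fin s
  op : (i : Fin s) → (Fin (w i) → ℝ) → ℝ
  θ : (i : Fin s) → Fin (w i) → ℝ
  val : (E → Bool) → Fin s → ℝ
  out : Fin s
  τ : ℝ
  earlier : ∀ i j m, a i j = Sum.inr m → m < i
  mono : ∀ i ∉ further, w i ≤ 2 ∧ Monotone (op i)
  threshold : ∀ i ∈ further, ∀ z z' : Fin (w i) → ℝ,
    (∀ j, θ i j ≤ z j ↔ θ i j ≤ z' j) → op i z = op i z'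
  spec : ∀ x i, val x i = op i (fun j =>
    Sum.elim (fun e => if x e = true then (1 : ℝ) else 0) (val x) (a i j))

variable {E : Type}

/-- The circuit accepts the input `x`. -/
def RealCircuit.Accepts (C : RealCircuit E) (x : E → Bool) : Prop := C.τ ≤ C.val x C.out

/-- The number of gates plus the number of inputs of the further gates. -/
def RealCircuit.size (C : RealCircuit E) : ℕ := C.s + ∑ i ∈ C.further, C.w i

/-- The product of the numbers `w i + 1` for the further gates `i` (`1` if there are none, and `2 ^ t`
for `t` NOT gates). -/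
def RealCircuit.freedom (C : RealCircuit E) : ℕ := ∏ i ∈ C.further, (C.w i + 1)

/-- The `j`-th input of gate `i` when the circuit works on `x`. -/
noncomputable def RealCircuit.input (C : RealCircuit E) (x : E → Bool) (i : Fin C.s)
    (j : Fin (C.w i)) : ℝ :=
  Sum.elim (fun e => if x e = true then (1 : ℝ) else 0) (C.val x) (C.a i j)

/-- Some further gate distinguishes the computations on `x` and on `y`: one of the tests `θ i j ≤ z j`
has different results. -/
def RealCircuit.Distinguishes (C : RealCircuit E) (x y : E → Bool) : Prop :=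
  ∃ i ∈ C.further, ∃ j, ¬ (C.θ i j ≤ C.input x i j ↔ C.θ i j ≤ C.input y i j)

open Classical in
/-- The alternation number of the circuit is at most `A`: in every increasing sequence
`x 0 ≤ x 1 ≤ ... ≤ x q` of inputs there are at most `A` steps `i < q` such that some further gate
distinguishes `x i` and `x (i + 1)`. -/
def RealCircuit.AlternationLE (C : RealCircuit E) (A : ℕ) : Prop :=
  ∀ (q : ℕ) (x : ℕ → E → Bool), Monotone x →
    ((range q).filter (fun i => C.Distinguishes (x i) (x (i + 1)))).card ≤ A

/-- The probability that the input `x` is accepted by a circuit that is chosen uniformly at random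
from the family `Γ`. -/
noncomputable def acceptance {R : Type} (Γ : R → RealCircuit E) (x : E → Bool) : ℝ :=
  (Nat.card {ρ : R // (Γ ρ).Accepts x} : ℝ) / Nat.card R

/-- The functions that are available after the functions of the list `L` have been computed: the
members of `L`, the constants and the inputs. -/
def Available (L : List ((E → Bool) → Bool)) (f : (E → Bool) → Bool) : Prop :=
  f ∈ L ∨ (∃ c : Bool, f = fun _ => c) ∨ ∃ e : E, f = fun x => x e

/-- Boolean circuits (straight-line programs) with AND, OR and NOT gates of fan-in at most two, one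
gate for each member of the list, `t` of them NOT gates. -/
inductive BooleanCircuit : ℕ → List ((E → Bool) → Bool) → Prop
  | nil : BooleanCircuit 0 []
  | and {t L f g} (hL : BooleanCircuit t L) (hf : Available L f) (hg : Available L g) :
      BooleanCircuit t ((fun x => f x && g x) :: L)
  | or {t L f g} (hL : BooleanCircuit t L) (hf : Available L f) (hg : Available L g) :
      BooleanCircuit t ((fun x => f x || g x) :: L)
  | not {t L f} (hL : BooleanCircuit t L) (hf : Available L f) :
      BooleanCircuit (t + 1) ((fun x => !f x) :: L)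

/-- Some Boolean circuit with at most `t` NOT gates and at most `s` gates decides whether the input
has the property `P`. -/
def Decides (t s : ℕ) (P : (E → Bool) → Prop) : Prop :=
  ∃ (t' : ℕ) (L : List ((E → Bool) → Bool)) (f : (E → Bool) → Bool), t' ≤ t ∧
    BooleanCircuit t' L ∧ L.length ≤ s ∧ Available L f ∧ ∀ x, f x = true ↔ P x

/-- Some Boolean circuit with at most `t` NOT gates and at most `s` gates computes `W` bits that
determine whether the input has the property `P` (so `Decides` implies this for `W = 1`). -/
def Compresses (t s W : ℕ) (P : (E → Bool) → Prop) : Prop :=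
  ∃ (t' : ℕ) (L : List ((E → Bool) → Bool)) (out : Fin W → (E → Bool) → Bool)
    (D : (Fin W → Bool) → Prop), t' ≤ t ∧ BooleanCircuit t' L ∧ L.length ≤ s ∧
    (∀ j, Available L (out j)) ∧ ∀ x, D (fun j => out j x) ↔ P x

/-- The circuit in the notation of the library. -/
noncomputable def toRC (C : RealCircuit E) : Pool.Agent.W969.MC.RC E :=
  ⟨C.s, C.further, C.w, C.a, C.op, C.θ, C.val, C.out, C.τ, C.earlier, C.mono, C.threshold, C.spec⟩

lemma chg_iff (C : RealCircuit E) (x y : E → Bool) : (toRC C).chg y x ↔ C.Distinguishes x y := by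
  constructor
  · rintro ⟨i, hi, j, hj⟩
    exact ⟨i, hi, j, fun h => hj h.symm⟩
  · rintro ⟨i, hi, j, hj⟩
    exact ⟨i, hi, j, fun h => hj h.symm⟩

lemma altLe_iff (C : RealCircuit E) (A : ℕ) :
    Pool.Agent.H10x.NL.AltLe (toRC C) A ↔ C.AlternationLE A := by
  classical
  have key : ∀ (q : ℕ) (x : ℕ → E → Bool),
      (range q).filter (fun i => (toRC C).chg (x (i + 1)) (x i)) =
      (range q).filter (fun i => C.Distinguishes (x i) (x (i + 1))) := by
    intro q x
    apply Finset.filter_congr
    intro i _
    exact chg_iff C (x i) (x (i + 1))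
  constructor
  · intro h q x hx
    have h1 := h q x hx
    convert h1 using 2
    exact (key q x).symm
  · intro h q x hx
    have h1 := h q x hx
    convert h1 using 2
    exact key q x

lemma toBC {t : ℕ} {L : List ((E → Bool) → Bool)} (h : BooleanCircuit t L) :
    Pool.Agent.H10x.NL.BC t L := by
  induction h with
  | nil => exact .nil
  | and _ hf hg ih => exact .and ih hf hg
  | or _ hf hg ih => exact .or ih hf hg
  | not _ hf ih => exact .not ih hf

lemma ofBC {t : ℕ} {L : List ((E → Bool) → Bool)} (h : Pool.Agent.H10x.NL.BC t L) :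
    BooleanCircuit t L := by
  induction h with
  | nil => exact .nil
  | and _ hf hg ih => exact .and ih hf hg
  | or _ hf hg ih => exact .or ih hf hg
  | not _ hf ih => exact .not ih hf

lemma yes_bridge {R : Type} [Fintype R] [Nonempty R] (C : R → RealCircuit E)
    {x : E → Bool} {β : ℝ} (h : β ≤ acceptance C x) :
    β * Fintype.card R ≤ ({ρ : R | (toRC (C ρ)).acc x}.ncard : ℝ) := by
  have hR : (0 : ℝ) < Fintype.card R := by exact_mod_cast Fintype.card_pos
  unfold acceptance at h
  rw [Nat.card_eq_fintype_card (α := R), le_div_iff₀ hR] at h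
  refine h.trans (le_of_eq ?_)
  congr 1

lemma no_bridge {R : Type} [Fintype R] [Nonempty R] (C : R → RealCircuit E)
    {x : E → Bool} {β : ℝ} (h : acceptance C x ≤ β) :
    ({ρ : R | (toRC (C ρ)).acc x}.ncard : ℝ) ≤ β * Fintype.card R := by
  have hR : (0 : ℝ) < Fintype.card R := by exact_mod_cast Fintype.card_pos
  unfold acceptance at h
  rw [Nat.card_eq_fintype_card (α := R), div_le_iff₀ hR] at h
  refine le_trans (le_of_eq ?_) h
  congr 1

/-- (1) There are `δ > 0`, `C > 0` and `l0` such that for all `l ≥ l0`, `k ≥ l` and `n ≥ 2 k` with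
`(log n) ^ 4 ≤ l` and `l ^ C ≤ n`: let a randomised circuit be given in which every circuit has
alternation number at most `n ^ 2 / l ^ C`, and a number `α` such that graphs on `n` vertices with a
clique of size `k` are accepted with probability at least `α + l ^ (-δ)`, and those without with
probability at most `α`. Then some of the circuits has size at least `l ^ (δ l)`.

(2) The alternation number of a circuit is smaller than its freedom (for `t` NOT gates it is at most
`2 ^ t - 1`), and at most the number of inputs.

(3) For all `ε, κ > 0` there are `δ > 0` and `n0` such that for all `n ≥ n0` and all `k` between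
`n ^ κ` and `n / 2`: Boolean circuits with `t` NOT gates that compute `W` bits from which one can tell
whether a graph on `n` vertices has a clique of size `k` have more than `2 ^ (n ^ δ)` gates, if
`2 ^ t (W + 1) ≤ n ^ (2 - ε)`. (For `W = 1`: circuits that decide the problem; for `t = 0`: monotone
circuits followed by an arbitrary function of `W` bits.)

(4) There is `C > 0` such that for all `a`, all large `n` and all `k` between `(log n) ^ 5` and
`n / 2`, such circuits have more than `n ^ a` gates if `2 ^ t (W + 1) ≤ n ^ 2 / (log n) ^ C`.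

(5) (Markov, Fischer) Conversely, a property of the inputs from a set `E` that is decided by a Boolean
circuit with `s` gates is decided by one with at most `⌈log₂ (|E| + 1)⌉` NOT gates and at most
`2 s + 10 (|E| + 1) ^ 3` gates. -/
theorem result :
    (∃ δ : ℝ, 0 < δ ∧ ∃ C : ℝ, 0 < C ∧ ∃ l0 : ℕ, ∀ n k l : ℕ, l0 ≤ l → l ≤ k → 2 * k ≤ n →
      (Real.log n) ^ 4 ≤ l → (l : ℝ) ^ C ≤ n →
      ∀ (R : Type) [Finite R] [Nonempty R] (Γ : R → RealCircuit (Edge n)) (α : ℝ),
        (∀ ρ, ∃ A : ℕ, (Γ ρ).AlternationLE A ∧ (A : ℝ) ≤ (n : ℝ) ^ 2 / (l : ℝ) ^ C) →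
        (∀ x, HasClique k x → α + (l : ℝ) ^ (-δ) ≤ acceptance Γ x) →
        (∀ x, ¬ HasClique k x → acceptance Γ x ≤ α) →
        ∃ ρ, (l : ℝ) ^ (δ * l) ≤ (Γ ρ).size) ∧
    (∀ (E : Type) [Fintype E] (Γ : RealCircuit E), Γ.AlternationLE (Γ.freedom - 1) ∧
      Γ.AlternationLE (Fintype.card E)) ∧
    (∀ ε κ : ℝ, 0 < ε → 0 < κ → ∃ δ : ℝ, 0 < δ ∧ ∃ n0 : ℕ, ∀ n k : ℕ, n0 ≤ n →
      (n : ℝ) ^ κ ≤ k → 2 * k ≤ n → ∀ t s W : ℕ, (2 : ℝ) ^ t * (W + 1) ≤ (n : ℝ) ^ (2 - ε) →
      Compresses t s W (HasClique (n := n) k) → (2 : ℝ) ^ ((n : ℝ) ^ δ) < s) ∧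
    (∃ C : ℝ, 0 < C ∧ ∀ a : ℝ, ∃ n0 : ℕ, ∀ n k : ℕ, n0 ≤ n →
      (Real.log n) ^ 5 ≤ k → 2 * k ≤ n → ∀ t s W : ℕ,
      (2 : ℝ) ^ t * (W + 1) ≤ (n : ℝ) ^ 2 / (Real.log n) ^ C →
      Compresses t s W (HasClique (n := n) k) → (n : ℝ) ^ a < s) ∧
    (∀ (E : Type) [Fintype E] (t s : ℕ) (P : (E → Bool) → Prop), Decides t s P →
      Decides (Nat.clog 2 (Fintype.card E + 1)) (2 * s + 10 * (Fintype.card E + 1) ^ 3) P) := by
  classical
  refine ⟨?_, ?_, ?_, ?_, ?_⟩
  · obtain ⟨δ, hδ, C, hC, l0, H⟩ := Pool.Agent.H10x.NL.G2.alt_rand Pool.Agent.H10x.NL.t_PACK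
    refine ⟨δ, hδ, C, hC, l0, ?_⟩
    intro n k l hl hlk hkn hlog hln R _ _ Γ α hA hyes hno
    let _ : Fintype R := Fintype.ofFinite R
    choose Al hAl hAl2 using hA
    exact H n k l hl hlk hkn hlog hln R (Edge n) (fun e => e) (fun ρ => toRC (Γ ρ)) α Al
      (fun ρ => (altLe_iff (Γ ρ) (Al ρ)).mpr (hAl ρ)) hAl2
      (fun x hx => yes_bridge Γ (hyes x hx)) (fun x hx => no_bridge Γ (hno x hx))
  · intro E _ Γ
    exact ⟨(altLe_iff Γ _).mp (Pool.Agent.H10x.NL.altLe_free (toRC Γ)),
      (altLe_iff Γ _).mp (Pool.Agent.H10x.NL.altLe_card (toRC Γ))⟩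
  · intro ε κ hε hκ
    obtain ⟨δ, hδ, n0, H⟩ := Pool.Agent.H10x.NL.G2.sharp_exp ε κ hε hκ
    refine ⟨δ, hδ, n0, ?_⟩
    rintro n k hn hkk hkn t s W ht ⟨t', L, out, D, h1, h2, h3, h4, h5⟩
    have h6 := H n k hn hkk hkn t' W L out D (toBC h2) h4 h5
      ((mul_le_mul_of_nonneg_right (pow_le_pow_right₀ (by norm_num) h1) (by positivity)).trans ht)
    exact h6.trans_le (by exact_mod_cast h3)
  · obtain ⟨C, hC, H⟩ := Pool.Agent.H10x.NL.G2.sharp_poly
    refine ⟨C, hC, fun a => ?_⟩
    obtain ⟨n0, H⟩ := H a
    refine ⟨n0, ?_⟩
    rintro n k hn hkk hkn t s W ht ⟨t', L, out, D, h1, h2, h3, h4, h5⟩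
    have h6 := H n k hn hkk hkn t' W L out D (toBC h2) h4 h5
      ((mul_le_mul_of_nonneg_right (pow_le_pow_right₀ (by norm_num) h1) (by positivity)).trans ht)
    exact h6.trans_le (by exact_mod_cast h3)
  · rintro E _ t s P ⟨t', L, f, h1, h2, h3, h4, h5⟩
    obtain ⟨t'', L', g1, g2, g3, g4⟩ := Pool.Agent.H10x.NL.t_FIS E t' s L f (toBC h2) h3 h4
    exact ⟨t'', L', f, g1, ofBC g2, g3, g4, h5⟩

end Pool.Agent.Results.MP_71c844_lc.AlternationNumber
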