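import Mathlib
import Pool.Agent.Helper1x.EC.Up
import Pool.Agent.Helper1x.EC.Hom
import Pool.Agent.Helper1x.EC.Sub
import Pool.Agent.Helper1x.EH.LowQ
import Pool.Agent.Helper1x.EH.Bla
import Pool.Agent.Helper1x.EH.MobA
import Pool.Agent.Helper1x.EH.Split
import Pool.Agent.Helper1x.EM.Wta
import Pool.Agent.Helper1x.EM.Wtb
import Pool.Agent.Helper1x.EM.Cna
import Pool.Agent.Helper1x.EM.Cnb
import Pool.Agent.Helper1x.EM.Nma
import Pool.Agent.Helper1x.EM.Nmb
import Pool.Agent.Helper1x.EM.Gem
import Pool.Agent.Helper1x.EM.Gei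
import Pool.Agent.Helper1x.EM.Dtb
import Pool.Agent.Helper1x.EM.Blv
import Pool.Agent.Helper1x.EM.Bld
import Pool.Agent.Helper1x.EM.Blm

/-!
# Circuits with determinant, permanent, Pfaffian and hafnian gates for multidimensional matching

The decision problem `(e + 1)`-dimensional matching is NP-complete for `e ≥ 2`, and in P for `e = 1`. Consider arithmetic
circuits with quadratic gates, determinant gates, gates for generalized matrix functions (permanents, immanants) and gates
for matching functions (Pfaffians, hafnians) of arbitrary size, which compute any polynomial whose values at zero-one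
points decide the problem, or count the perfect matchings. Fix one generic element of the torus. If the quadratic gates
are sums of `w` eigenvectors and the other gates are equivariant, then `w * size` is at least `2 ^ (e n / 40) / 2` for
`e ≥ 2`. So the gates of every small circuit with quadratic gates have exponentially many weights (every polynomial is a
sum of eigenvectors, there is no symmetry assumption in this case). Nothing is required for the hypergraphs with more
than one perfect matching, and the values need to be correct only approximately, in any absolute value. It is enough that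
the torus element is generic on a block of `k` indices (and trivial outside), then the bound is `2 ^ (e k / 40) / 2`;
conversely every circuit with quadratic gates for the counting polynomial can be changed into one with eigenvectors of all
these torus elements at the cost of a factor `2 ^ ((e + 1) k)`. For `e = 1` one determinant gate of size `n` with suitable
constants decides at all zero-one points (over infinite fields), but `w * size` is exponential if all matrices are small
compared with `n`.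

The pieces of the proof were written together with helper21, helper22, helper69, helper91, helper99, helper20, helper58
and helper42.
-/

set_option autoImplicit false

namespace Pool.Agent.Results.MP_71c844_lc.EquivariantCircuits

open Finset

/-- the indices of the variables `x(i, c)` -/
abbrev Var (n e : ℕ) := Fin n × (Fin e → Fin n)

/-- the perfect matching of the tuple `σ` of permutations -/
def matching {n e : ℕ} (σ : Fin e → Equiv.Perm (Fin n)) : Finset (Var n e) := univ.image fun i => (i, fun s => σ s i)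

/-- the value of `f` at the zero-one point of the hypergraph `Y` -/
noncomputable def value {n e : ℕ} {K : Type*} [Field K] (f : MvPolynomial (Var n e) K) (Y : Finset (Var n e)) : K :=
  MvPolynomial.eval (fun x => if x ∈ Y then (1 : K) else 0) f

/-- the part of the monomial of the matching `σ` in a set `A` of first coordinates: the exponent vector of
`∏_{i ∈ A} x(i, (σ_1 i, ..., σ_e i))` -/
noncomputable def mon {n e : ℕ} (σ : Fin e → Equiv.Perm (Fin n)) (A : Finset (Fin n)) : Var n e →₀ ℕ :=
  ∑ i ∈ A, Finsupp.single (i, fun s => σ s i) 1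

/-- the form with the coefficients `a σ` -/
noncomputable def form {n e : ℕ} {K : Type*} [Field K] (a : (Fin e → Equiv.Perm (Fin n)) → K) :
    MvPolynomial (Var n e) K := ∑ σ : Fin e → Equiv.Perm (Fin n), MvPolynomial.monomial (mon σ univ) (a σ)

/-- the substitution `x ↦ c x` -/
noncomputable def scale {X K : Type*} [Field K] (c : X → K) : MvPolynomial X K →ₐ[K] MvPolynomial X K :=
  MvPolynomial.aeval fun x => MvPolynomial.C (c x) * MvPolynomial.X x

/-- the span of one, the variables and the polynomials `p j`, `j < k` -/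
noncomputable def Earlier {X K : Type*} [Field K] (p : ℕ → MvPolynomial X K) (k : ℕ) : Submodule K (MvPolynomial X K) :=
  Submodule.span K ({1} ∪ Set.range MvPolynomial.X ∪ p '' Set.Iio k)

/-- quadratic gate: a linear combination of products of two elements of `Earlier p k` -/
def Quadratic {X K : Type*} [Field K] (p : ℕ → MvPolynomial X K) (k : ℕ) : Prop :=
  p k ∈ Earlier p k * Earlier p k

/-- determinant gate of size `m`: the entries are in `Earlier p k`, and the matrix is equivariant, `M(c x) = B M(x) C`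
with invertible matrices `B`, `C` over `K` -/
def DetGate {X K : Type*} [Field K] (c : X → K) (p : ℕ → MvPolynomial X K) (k m : ℕ) : Prop :=
  ∃ (M : Matrix (Fin m) (Fin m) (MvPolynomial X K)) (B C : Matrix (Fin m) (Fin m) K), (∀ u v, M u v ∈ Earlier p k) ∧
    IsUnit B.det ∧ IsUnit C.det ∧ M.map (scale c) = B.map MvPolynomial.C * M * C.map MvPolynomial.C ∧ p k = M.det

/-- gate for a generalized matrix function `∑ π, χ π ∏ v, M (π v) v` of size `m` (permanent, immanants, ...): the entries
are in `Earlier p k`, and the matrix is equivariant, `M(c x) = B M(x) C` with invertible diagonal matrices over `K` -/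
def MatrixFunctionGate {X K : Type*} [Field K] (c : X → K) (p : ℕ → MvPolynomial X K) (k m : ℕ) : Prop :=
  ∃ (M : Matrix (Fin m) (Fin m) (MvPolynomial X K)) (b μ : Fin m → Kˣ) (χ : Equiv.Perm (Fin m) → K),
    (∀ u v, M u v ∈ Earlier p k) ∧
    (∀ u v, scale c (M u v) = MvPolynomial.C ((b u : K) * (μ v : K)) * M u v) ∧
    p k = ∑ π, MvPolynomial.C (χ π) * ∏ v, M (π v) v

/-- gate for a matching function `∑ τ, χ τ ∏_{v < τ v}, M v (τ v)` of size `m` (Pfaffian, hafnian, ...), `τ` runs
through the perfect matchings of the complete graph on `Fin m`, the involutions without fixed points: the entries are in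
`Earlier p k`, and the matrix is equivariant, `M(c x) = B M(x) B` with an invertible diagonal matrix over `K` -/
def MatchingFunctionGate {X K : Type*} [Field K] (c : X → K) (p : ℕ → MvPolynomial X K) (k m : ℕ) : Prop :=
  ∃ (M : Matrix (Fin m) (Fin m) (MvPolynomial X K)) (b : Fin m → Kˣ) (χ : Equiv.Perm (Fin m) → K),
    (∀ u v, M u v ∈ Earlier p k) ∧
    (∀ u v, scale c (M u v) = MvPolynomial.C ((b u : K) * (b v : K)) * M u v) ∧
    p k = ∑ τ ∈ (univ : Finset (Equiv.Perm (Fin m))).filter (fun τ => ∀ v, τ (τ v) = v ∧ τ v ≠ v),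
      MvPolynomial.C (χ τ) * ∏ v ∈ (univ : Finset (Fin m)).filter (fun v => v < τ v), M v (τ v)

/-- `f` is an eigenvector of the substitution `x ↦ c x` -/
def Eigenvector {X K : Type*} [Field K] (c : X → K) (f : MvPolynomial X K) : Prop :=
  ∃ a : K, scale c f = MvPolynomial.C a * f

/-- `f` is a sum of `w` eigenvectors of the substitution `x ↦ c x` -/
def SumOfEigenvectors {X K : Type*} [Field K] (c : X → K) (w : ℕ) (f : MvPolynomial X K) : Prop :=
  ∃ q : Fin w → MvPolynomial X K, (∀ i, Eigenvector c (q i)) ∧ f = ∑ i, q i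

/-- `p 0, ..., p (G - 1)` is a circuit with at most `w` weights under the substitution `x ↦ c x`: every gate is a
quadratic gate and a sum of `w` eigenvectors, or it is an eigenvector and a determinant gate, a gate for a generalized
matrix function or a gate for a matching function, of size `m k` -/
def Circuit {X K : Type*} [Field K] (c : X → K) (w G : ℕ) (p : ℕ → MvPolynomial X K) (m : ℕ → ℕ) : Prop :=
  ∀ k < G, (Quadratic p k ∧ SumOfEigenvectors c w (p k)) ∨ (Eigenvector c (p k) ∧
    (DetGate c p k (m k) ∨ MatrixFunctionGate c p k (m k) ∨ MatchingFunctionGate c p k (m k)))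

/-- the size of a circuit -/
def size (G : ℕ) (m : ℕ → ℕ) : ℕ := ∑ k ∈ range G, (m k + 1)

/-- `f` is computed by a circuit of size `s` with at most `w` weights under the substitution `x ↦ c x` -/
def Computes {X K : Type*} [Field K] (c : X → K) (w s : ℕ) (f : MvPolynomial X K) : Prop :=
  ∃ (G : ℕ) (p : ℕ → MvPolynomial X K) (m : ℕ → ℕ), Circuit c w G p m ∧ f ∈ Earlier p G ∧ size G m = s

/-- the torus element `(S, T)`: `x(i, c)` is multiplied by `S_i T_{1, c_1} ... T_{e, c_e}` -/
def torus {n e : ℕ} {K : Type*} [Field K] (S : Fin n → Kˣ) (T : Fin e → Fin n → Kˣ) (x : Var n e) : K :=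
  ((S x.1 * ∏ s, T s (x.2 s) : Kˣ) : K)

/-- `(S, T)` is generic of level `D`: in a multiplicative relation between its entries with exponents of absolute value at
most `2 D` the exponents of the `S i` are all equal, and for each `s` those of the `T s j` are all equal. -/
def Generic {n e : ℕ} {K : Type*} [Field K] (D : ℕ) (S : Fin n → Kˣ) (T : Fin e → Fin n → Kˣ) : Prop :=
  ∀ (P : Fin n → ℤ) (Q : Fin e → Fin n → ℤ), (∀ i, |P i| ≤ 2 * D) → (∀ s j, |Q s j| ≤ 2 * D) →
    (∏ i, S i ^ P i) * (∏ s, ∏ j, T s j ^ Q s j) = 1 → (∀ i i', P i = P i') ∧ ∀ s j j', Q s j = Q s j'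

open Classical in
/-- at least `(n!) ^ e / R` of the tuples of permutations satisfy `P` -/
def Many {n e : ℕ} (R : ℕ) (P : (Fin e → Equiv.Perm (Fin n)) → Prop) : Prop :=
  n.factorial ^ e ≤ R * (univ.filter P).card

/-- `(S, T)` is generic of a level which bounds the degrees of `f` in the variables, or generic of all levels -/
def GenericFor {n m e : ℕ} {K : Type*} [Field K] (f : MvPolynomial (Var m e) K) (S : Fin n → Kˣ)
    (T : Fin e → Fin n → Kˣ) : Prop := (∃ D, Generic D S T ∧ ∀ x, f.degreeOf x ≤ D) ∨ ∀ D, Generic D S T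

/-- The values of `f` are of size at most `2 ^ (-N)` if there is no perfect matching, and of size at least one if there is
exactly one. For the trivial absolute value and `N > 0`: the values are zero, respectively not zero. -/
def Decides {n e : ℕ} {K : Type*} [Field K] (v : AbsoluteValue K ℝ) (N : ℕ) (f : MvPolynomial (Var n e) K) : Prop :=
  (∀ Y, (∀ σ : Fin e → Equiv.Perm (Fin n), ¬ matching σ ⊆ Y) → 2 ^ N * v (value f Y) ≤ 1) ∧
    ∀ Y, (∃! σ : Fin e → Equiv.Perm (Fin n), matching σ ⊆ Y) → 1 ≤ v (value f Y)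

/-- the torus element which is `(S, T)` on the block `ι` and one elsewhere -/
noncomputable def block {n e k : ℕ} {K : Type*} [Field K] (ι : Fin k ↪ Fin n) (S : Fin k → Kˣ)
    (T : Fin e → Fin k → Kˣ) : Var n e → K :=
  torus (Function.extend ι S 1) fun s => Function.extend ι (T s) 1

open Classical in
theorem Many.mono {n e R : ℕ} {P Q : (Fin e → Equiv.Perm (Fin n)) → Prop} (h : Many R P) (hPQ : ∀ σ, P σ → Q σ) :
    Many R Q :=
  h.trans (Nat.mul_le_mul_left _ (Finset.card_le_card fun σ hσ =>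
    mem_filter.2 ⟨mem_univ _, hPQ σ (mem_filter.1 hσ).2⟩))

open Classical in
theorem Many.le {n e R : ℕ} {P : (Fin e → Equiv.Perm (Fin n)) → Prop} (h : Many R P) (inst : DecidablePred P) :
    n.factorial ^ e ≤ R * (@Finset.filter _ P inst univ).card := by
  obtain rfl : inst = fun a => Classical.propDecidable (P a) := Subsingleton.elim _ _
  exact h

open Classical in
theorem many_all {n e : ℕ} {P : (Fin e → Equiv.Perm (Fin n)) → Prop} (h : ∀ σ, P σ) : Many 1 P := by
  unfold Many
  rw [one_mul, Finset.filter_true_of_mem fun σ _ => h σ, Finset.card_univ, Fintype.card_fun, Fintype.card_perm,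
    Fintype.card_fin, Fintype.card_fin]

theorem eq_of_subset {n e : ℕ} {σ σ' : Fin e → Equiv.Perm (Fin n)} (h : matching σ' ⊆ matching σ) : σ' = σ := by
  funext s
  ext i
  obtain ⟨i', _, h1⟩ := mem_image.1 (h (mem_image_of_mem _ (mem_univ i)))
  rw [Prod.mk.injEq] at h1
  obtain ⟨h2, h3⟩ := h1
  subst h2
  rw [← congrFun h3 s]

theorem filter_self {n e : ℕ} (σ : Fin e → Equiv.Perm (Fin n)) :
    (univ.filter fun σ' : Fin e → Equiv.Perm (Fin n) => matching σ' ⊆ matching σ).card = 1 := by
  have h2 : (univ.filter fun σ' : Fin e → Equiv.Perm (Fin n) => matching σ' ⊆ matching σ) = {σ} := by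
    ext σ'
    rw [mem_filter, Finset.mem_singleton]
    constructor
    · rintro ⟨_, h3⟩
      exact eq_of_subset h3
    · rintro rfl
      exact ⟨mem_univ _, subset_rfl⟩
  rw [h2, Finset.card_singleton]

theorem filter_proper {n e : ℕ} {σ : Fin e → Equiv.Perm (Fin n)} {Y : Finset (Var n e)} (hY : Y ⊂ matching σ) :
    (univ.filter fun σ' : Fin e → Equiv.Perm (Fin n) => matching σ' ⊆ Y).card = 0 := by
  rw [Finset.card_eq_zero]
  refine Finset.filter_eq_empty_iff.2 fun σ' _ hσ' => ?_
  have h3 := eq_of_subset (hσ'.trans hY.subset)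
  rw [h3] at hσ'
  exact hY.not_subset hσ'

theorem card_matching {n e : ℕ} (σ : Fin e → Equiv.Perm (Fin n)) : (matching σ).card = n := by
  rw [matching, Finset.card_image_of_injective _ fun i i' h => congrArg Prod.fst h, Finset.card_univ, Fintype.card_fin]

theorem monomial_mon {n e : ℕ} {K : Type*} [Field K] (σ : Fin e → Equiv.Perm (Fin n)) :
    MvPolynomial.monomial (mon σ univ) (1 : K) = ∏ i, MvPolynomial.X (i, fun s => σ s i) := by
  rw [mon, MvPolynomial.monomial_sum_one]
  rfl

theorem value_form {n e : ℕ} {K : Type*} [Field K] (Y : Finset (Var n e)) :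
    value (form fun _ : Fin e → Equiv.Perm (Fin n) => (1 : K)) Y =
      ((univ.filter fun σ : Fin e → Equiv.Perm (Fin n) => matching σ ⊆ Y).card : K) := by
  unfold value form
  rw [map_sum]
  have h4 : ∀ σ : Fin e → Equiv.Perm (Fin n), MvPolynomial.eval (fun x => if x ∈ Y then (1 : K) else 0)
      (MvPolynomial.monomial (mon σ univ) (1 : K)) = if matching σ ⊆ Y then 1 else 0 := by
    intro σ
    rw [monomial_mon, map_prod]
    simp only [MvPolynomial.eval_X]
    split_ifs with h5
    · refine Finset.prod_eq_one fun i _ => ?_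
      exact if_pos (h5 (mem_image_of_mem _ (mem_univ i)))
    · obtain ⟨x, hx, hY⟩ := Finset.not_subset.1 h5
      obtain ⟨i, _, rfl⟩ := mem_image.1 hx
      exact Finset.prod_eq_zero (mem_univ i) (if_neg hY)
  rw [Finset.sum_congr rfl fun σ _ => h4 σ, Finset.sum_boole]

theorem degree_prod {n e : ℕ} {K : Type*} [Field K] (ξ : Fin n → K) (c : Fin n → Fin e → Fin n) (x : Var n e) :
    MvPolynomial.degreeOf x (∏ i, (MvPolynomial.C (ξ i) * MvPolynomial.X (i, c i))) ≤ 1 := by
  classical
  refine (MvPolynomial.degreeOf_prod_le x _ _).trans ?_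
  have h4 : ∀ i, MvPolynomial.degreeOf x (MvPolynomial.C (ξ i) * MvPolynomial.X (i, c i)) ≤
      if x = (i, c i) then 1 else 0 := by
    intro i
    refine (MvPolynomial.degreeOf_C_mul_le _ _ _).trans ?_
    rw [MvPolynomial.degreeOf_X]
  refine (Finset.sum_le_sum fun i _ => h4 i).trans ?_
  rw [← Finset.card_filter]
  refine Finset.card_le_one.2 fun i hi i' hi' => ?_
  exact congrArg Prod.fst ((mem_filter.1 hi).2.symm.trans (mem_filter.1 hi').2)

theorem degree_form {n e : ℕ} {K : Type*} [Field K] (x : Var n e) :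
    MvPolynomial.degreeOf x (form fun _ : Fin e → Equiv.Perm (Fin n) => (1 : K)) ≤ 1 := by
  unfold form
  refine (MvPolynomial.degreeOf_sum_le x _ _).trans (Finset.sup_le fun σ _ => ?_)
  rw [monomial_mon]
  have h1 := degree_prod (K := K) (fun _ : Fin n => 1) (fun i s => σ s i) x
  simpa using h1

/-- the matrix of the determinant with constants -/
noncomputable def edm {n : ℕ} {K : Type*} [Field K] (ξ : Fin n → Fin n → K) :
    Matrix (Fin n) (Fin n) (MvPolynomial (Var n 1) K) :=
  Matrix.of fun u v => MvPolynomial.C (ξ v u) * MvPolynomial.X (v, fun _ => u)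

theorem edmonds_map {n : ℕ} {K : Type*} [Field K] (ξ : Fin n → Fin n → K) (S : Fin n → Kˣ) (T : Fin 1 → Fin n → Kˣ) :
    (edm ξ).map (scale (torus S T)) = (Matrix.diagonal fun u => ((T 0 u : Kˣ) : K)).map MvPolynomial.C * edm ξ *
        (Matrix.diagonal fun v => ((S v : Kˣ) : K)).map MvPolynomial.C := by
  have hmap : ∀ f : Fin n → K, (Matrix.diagonal f).map MvPolynomial.C =
      (Matrix.diagonal fun i => MvPolynomial.C (f i) : Matrix _ _ (MvPolynomial (Var n 1) K)) := by
    intro f
    rw [Matrix.diagonal_map (by simp)]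
  ext1 u v
  rw [hmap, hmap, Matrix.mul_diagonal, Matrix.diagonal_mul, Matrix.map_apply, edm, Matrix.of_apply, map_mul, scale,
    MvPolynomial.aeval_X, MvPolynomial.aeval_C, torus, Fin.prod_univ_one, Units.val_mul, map_mul,
    MvPolynomial.algebraMap_eq]
  ring

theorem edmonds_det {n : ℕ} {K : Type*} [Field K] (ξ : Fin n → Fin n → K) (S : Fin n → Kˣ) (T : Fin 1 → Fin n → Kˣ)
    (k : ℕ) : DetGate (torus S T) (fun _ => (edm ξ).det) k n := by
  have hdiag : ∀ f : Fin n → Kˣ, IsUnit (Matrix.diagonal fun i => ((f i : Kˣ) : K)).det := by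
    intro f
    rw [Matrix.det_diagonal, ← Units.coe_prod]
    exact Units.isUnit _
  refine ⟨edm ξ, _, _, fun u v => ?_, hdiag _, hdiag _, edmonds_map ξ S T, rfl⟩
  have h1 : (edm ξ) u v = ξ v u • MvPolynomial.X (v, fun _ => u) := by
    rw [edm, Matrix.of_apply, MvPolynomial.smul_eq_C_mul]
  rw [h1]
  exact Submodule.smul_mem _ _ (Submodule.subset_span (Or.inl (Or.inr ⟨_, rfl⟩)))

theorem edmonds {n : ℕ} {K : Type*} [Field K] (ξ : Fin n → Fin n → K) (S : Fin n → Kˣ) (T : Fin 1 → Fin n → Kˣ) :
    Circuit (torus S T) 1 1 (fun _ => (edm ξ).det) fun _ => n := by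
  refine fun k hk => Or.inr ⟨?_, Or.inl (edmonds_det ξ S T k)⟩
  · refine ⟨(Matrix.diagonal fun u => ((T 0 u : Kˣ) : K)).det * (Matrix.diagonal fun v => ((S v : Kˣ) : K)).det, ?_⟩
    have h1 : scale (torus S T) (edm ξ).det = ((edm ξ).map (scale (torus S T))).det := by
      rw [AlgHom.map_det, AlgHom.mapMatrix_apply]
    rw [h1, edmonds_map ξ S T, Matrix.det_mul, Matrix.det_mul, map_mul, RingHom.map_det, RingHom.map_det,
      RingHom.mapMatrix_apply, RingHom.mapMatrix_apply]
    ring

theorem value_edm {n : ℕ} {K : Type*} [Field K] (ξ : Fin n → Fin n → K) (Y : Finset (Var n 1)) :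
    value (edm ξ).det Y = (Matrix.of fun u v : Fin n =>
      if (v, u) ∈ (univ.filter fun y : Fin n × Fin n => (y.1, fun _ : Fin 1 => y.2) ∈ Y) then ξ v u else 0).det := by
  unfold value
  rw [RingHom.map_det]
  congr 1
  ext u v
  rw [RingHom.mapMatrix_apply, Matrix.map_apply, edm, Matrix.of_apply, Matrix.of_apply, map_mul, MvPolynomial.eval_C,
    MvPolynomial.eval_X, mul_ite, mul_one, mul_zero]
  have hm : (v, u) ∈ (univ.filter fun y : Fin n × Fin n => ((y.1, fun _ : Fin 1 => y.2) : Var n 1) ∈ Y) ↔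
      ((v, fun _ => u) : Var n 1) ∈ Y := by
    rw [mem_filter]
    exact and_iff_right (mem_univ _)
  by_cases h : ((v, fun _ => u) : Var n 1) ∈ Y
  · rw [if_pos h, if_pos (hm.2 h)]
  · rw [if_neg h, if_neg fun h' => h (hm.1 h')]

theorem degree_edm {n : ℕ} {K : Type*} [Field K] (ξ : Fin n → Fin n → K) (x : Var n 1) :
    MvPolynomial.degreeOf x (edm ξ).det ≤ 1 := by
  rw [Matrix.det_apply']
  refine (MvPolynomial.degreeOf_sum_le x _ _).trans (Finset.sup_le fun π _ => ?_)
  have h1 : ((Equiv.Perm.sign π : ℤ) : MvPolynomial (Var n 1) K) = MvPolynomial.C ((Equiv.Perm.sign π : ℤ) : K) :=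
    (map_intCast (MvPolynomial.C : K →+* MvPolynomial (Var n 1) K) _).symm
  rw [h1]
  refine (MvPolynomial.degreeOf_C_mul_le _ _ _).trans ?_
  exact degree_prod (fun i => ξ i (π i)) (fun i _ => π i) x

theorem exists_matching {n : ℕ} (Y : Finset (Var n 1)) : (∃ π : Equiv.Perm (Fin n), ∀ i, (i, π i) ∈
    (univ.filter fun y : Fin n × Fin n => (y.1, fun _ : Fin 1 => y.2) ∈ Y)) ↔
      ∃ σ : Fin 1 → Equiv.Perm (Fin n), matching σ ⊆ Y := by
  constructor
  · rintro ⟨π, hπ⟩
    refine ⟨fun _ => π, fun x hx => ?_⟩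
    obtain ⟨i, _, rfl⟩ := mem_image.1 hx
    exact (mem_filter.1 (hπ i)).2
  · rintro ⟨σ, hσ⟩
    refine ⟨σ 0, fun i => mem_filter.2 ⟨mem_univ _, ?_⟩⟩
    have h1 := hσ (mem_image_of_mem _ (mem_univ i))
    have h2 : (fun s : Fin 1 => σ s i) = fun _ => σ 0 i := by
      funext s
      rw [Subsingleton.elim s 0]
    rw [← h2]
    exact h1

/-- the torus element `block ι S T` in the group of units -/
noncomputable def blockU {n e k : ℕ} {K : Type*} [Field K] (ι : Fin k ↪ Fin n) (S : Fin k → Kˣ)
    (T : Fin e → Fin k → Kˣ) (x : Var n e) : Kˣ :=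
  Function.extend ι S 1 x.1 * ∏ s, Function.extend ι (T s) 1 (x.2 s)

open Classical in
/-- the restriction to a block of a polynomial which decides has many monomials -/
theorem reduce {K : Type} [Field K] (v : AbsoluteValue K ℝ) {n e k : ℕ} (ι : Fin k ↪ Fin n) {S : Fin k → Kˣ}
    {T : Fin e → Fin k → Kˣ} {f : MvPolynomial (Var n e) K} (hD : GenericFor f S T) (hv : Decides v k f) :
    ∃ D, Generic D S T ∧ Many 1 (fun τ : Fin e → Equiv.Perm (Fin k) =>
      ∃ u ∈ (Pool.Agent.Helper1x.EC.sHom ι f).support, u.support = matching τ ∧ ∀ x, u x ≤ D) := by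
  obtain ⟨hv0, hv1⟩ := hv
  obtain ⟨D, ht, hD⟩ : ∃ D, Generic D S T ∧ ∀ x, f.degreeOf x ≤ D := by
    rcases hD with hD | hD
    · exact hD
    · exact ⟨f.totalDegree, hD _, fun x => MvPolynomial.degreeOf_le_totalDegree f x⟩
  set f' := Pool.Agent.Helper1x.EC.sHom ι f with hf'
  have hval : ∀ Y, value f' Y = value f (Pool.Agent.Helper1x.EM.extY ι Y) := fun Y =>
    Pool.Agent.Helper1x.EM.t_BLV K n e k ι f Y
  have hcard : ∀ Y, (univ.filter fun σ : Fin e → Equiv.Perm (Fin n) =>
      matching σ ⊆ Pool.Agent.Helper1x.EM.extY ι Y).card =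
      (univ.filter fun τ : Fin e → Equiv.Perm (Fin k) => matching τ ⊆ Y).card := fun Y =>
    Pool.Agent.Helper1x.EM.t_BLM n e k ι Y
  refine ⟨D, ht, many_all fun τ => ?_⟩
  have h2 : 1 ≤ v (value f' (matching τ)) := by
    rw [hval]
    refine hv1 _ ?_
    have h3 := hcard (matching τ)
    rw [filter_self] at h3
    obtain ⟨σ, hσ⟩ := Finset.card_eq_one.1 h3
    have h5 : σ ∈ (univ.filter fun σ : Fin e → Equiv.Perm (Fin n) =>
        matching σ ⊆ Pool.Agent.Helper1x.EM.extY ι (matching τ)) := by
      rw [hσ]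
      exact Finset.mem_singleton_self σ
    refine ⟨σ, (mem_filter.1 h5).2, fun σ' hσ' => ?_⟩
    have h4 : σ' ∈ (univ.filter fun σ : Fin e → Equiv.Perm (Fin n) =>
        matching σ ⊆ Pool.Agent.Helper1x.EM.extY ι (matching τ)) := mem_filter.2 ⟨mem_univ _, hσ'⟩
    rw [hσ] at h4
    exact Finset.mem_singleton.1 h4
  have h6 : value f' (matching τ) ≠ 0 := by
    intro h3
    rw [h3, v.map_zero] at h2
    exact absurd h2 (by norm_num)
  obtain ⟨u, hu, hu'⟩ := Pool.Agent.Helper1x.EH.mob_abs v f' (matching τ) (fun Y hY => by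
    rw [card_matching]
    refine (le_trans ?_ h2)
    have h7 : 2 ^ k * v (value f' Y) ≤ 1 := by
      rw [hval]
      refine hv0 _ fun σ hσ => ?_
      have h3 := hcard Y
      rw [filter_proper hY, Finset.card_eq_zero] at h3
      have h4 : σ ∈ (univ.filter fun σ : Fin e → Equiv.Perm (Fin n) =>
          matching σ ⊆ Pool.Agent.Helper1x.EM.extY ι Y) := mem_filter.2 ⟨mem_univ _, hσ⟩
      rw [h3] at h4
      exact Finset.notMem_empty σ h4
    exact h7) h6
  exact ⟨u, hu, hu', fun x => (MvPolynomial.monomial_le_degreeOf x hu).trans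
    (Pool.Agent.Helper1x.EM.t_BLD K n e k D ι f hD x)⟩

open Classical in
/-- **Circuits with determinant, permanent, Pfaffian and hafnian gates for multidimensional matching.** -/
theorem result :
    -- (1) lower bound for polynomials with many of the monomials
    (∀ (K : Type) [Field K] (n e D : ℕ), 400 ≤ n → 2 ≤ e → ∀ (S : Fin n → Kˣ) (T : Fin e → Fin n → Kˣ),
      Generic D S T → ∀ (w s R : ℕ) (f : MvPolynomial (Var n e) K), 1 ≤ w → Computes (torus S T) w s f →
      Many R (fun σ : Fin e → Equiv.Perm (Fin n) => ∃ u ∈ f.support, u.support = matching σ ∧ ∀ x, u x ≤ D) →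
      2 ^ (e * n) ≤ (2 * R * (w * s) ^ 2) ^ 20) ∧
    -- (2) approximately correct values at many perfect matchings and their proper subsets suffice
    (∀ (K : Type) [Field K] (v : AbsoluteValue K ℝ) (n e D : ℕ), 400 ≤ n → 2 ≤ e → ∀ (S : Fin n → Kˣ)
      (T : Fin e → Fin n → Kˣ), Generic D S T → ∀ (w s R : ℕ) (f : MvPolynomial (Var n e) K), 1 ≤ w →
      Computes (torus S T) w s f → (∀ x, f.degreeOf x ≤ D) →
      Many R (fun σ : Fin e → Equiv.Perm (Fin n) => value f (matching σ) ≠ 0 ∧
        ∀ Y, Y ⊂ matching σ → 2 ^ n * v (value f Y) ≤ v (value f (matching σ))) →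
      2 ^ (e * n) ≤ (2 * R * (w * s) ^ 2) ^ 20) ∧
    -- (3) lower bound for all polynomials which decide approximately, under the promise of at most one perfect matching,
    -- for one torus element generic on a block
    (∀ (K : Type) [Field K] (v : AbsoluteValue K ℝ) (n e k : ℕ), 400 ≤ k → 2 ≤ e → ∀ (ι : Fin k ↪ Fin n)
      (S : Fin k → Kˣ) (T : Fin e → Fin k → Kˣ) (w s : ℕ) (f : MvPolynomial (Var n e) K), 1 ≤ w →
      Computes (block ι S T) w s f → GenericFor f S T → Decides v k f →
      2 ^ (e * k) ≤ (2 * (w * s) ^ 2) ^ 20) ∧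
    -- (4) circuits with matrices of size at most `N` only, also for `e = 1`; in particular `N = 0`: all circuits with
    -- quadratic gates have a gate which is not a sum of less than `(k.choose a) ^ e / G` eigenvectors
    (∀ (K : Type) [Field K] (v : AbsoluteValue K ℝ) (n e k a N : ℕ), 2 ≤ a → 3 * a ≤ k → (N + 1) * a ≤ k →
      ∀ (ι : Fin k ↪ Fin n) (S : Fin k → Kˣ) (T : Fin e → Fin k → Kˣ) (w G : ℕ) (p : ℕ → MvPolynomial (Var n e) K)
      (m : ℕ → ℕ), 1 ≤ w → Circuit (block ι S T) w G p m → (∀ j < G, m j ≤ N) → ∀ f ∈ Earlier p G,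
      GenericFor f S T → Decides v k f → (k.choose a) ^ e ≤ w * G) ∧
    -- (5) every circuit of quadratic gates can be made equivariant for a block
    (∀ (K : Type) [Field K] (n e k : ℕ) (ι : Fin k ↪ Fin n) (a : (Fin e → Equiv.Perm (Fin n)) → K) (G : ℕ)
      (p : ℕ → MvPolynomial (Var n e) K), (∀ j < G, Quadratic p j) → form a ∈ Earlier p G →
      ∃ p' : ℕ → MvPolynomial (Var n e) K, (∀ (S : Fin k → Kˣ) (T : Fin e → Fin k → Kˣ),
        Circuit (block ι S T) 1 (G * 2 ^ ((e + 1) * k)) p' fun _ => 0) ∧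
        form a ∈ Earlier p' (G * 2 ^ ((e + 1) * k))) ∧
    -- (6) an equivariant circuit of quadratic gates with `2 ^ (e n)` gates for the form with coefficients one
    (∀ (K : Type) [Field K] (n e : ℕ), 1 ≤ n → 1 ≤ e → ∃ (G : ℕ) (p : ℕ → MvPolynomial (Var n e) K),
      G ≤ 2 ^ (e * n) ∧ (∀ (S : Fin n → Kˣ) (T : Fin e → Fin n → Kˣ), Circuit (torus S T) 1 G p fun _ => 0) ∧
      form (fun _ : Fin e → Equiv.Perm (Fin n) => (1 : K)) ∈ Earlier p G) ∧
    -- (7) this form counts, and has degree at most one in each variable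
    (∀ (K : Type) [Field K] (n e : ℕ), (∀ x, (form fun _ : Fin e → Equiv.Perm (Fin n) => (1 : K)).degreeOf x ≤ 1) ∧
      ∀ Y, value (form fun _ : Fin e → Equiv.Perm (Fin n) => (1 : K)) Y =
        ((univ.filter fun σ : Fin e → Equiv.Perm (Fin n) => matching σ ⊆ Y).card : K)) ∧
    -- (8) for `e = 1` one determinant gate of size `n` decides, over infinite fields
    (∀ (K : Type) [Field K] [Infinite K] (n : ℕ), ∃ p : ℕ → MvPolynomial (Var n 1) K,
      (∀ (S : Fin n → Kˣ) (T : Fin 1 → Fin n → Kˣ), Circuit (torus S T) 1 1 p (fun _ => n) ∧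
        DetGate (torus S T) p 0 n) ∧
      (∀ x, (p 0).degreeOf x ≤ 1) ∧ ∀ Y, value (p 0) Y ≠ 0 ↔ ∃ σ : Fin 1 → Equiv.Perm (Fin n), matching σ ⊆ Y) ∧
    -- (9) generic torus elements of every level exist over infinite fields
    (∀ (K : Type) [Field K] [Infinite K] (n e D : ℕ), ∃ (S : Fin n → Kˣ) (T : Fin e → Fin n → Kˣ), Generic D S T) ∧
    -- (10) one which is generic of all levels exists over the fields of characteristic zero
    (∀ (K : Type) [Field K] [CharZero K] (n e : ℕ), ∃ (S : Fin n → Kˣ) (T : Fin e → Fin n → Kˣ),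
      ∀ D, Generic D S T) := by
  have hmon : ∀ (K : Type) [Field K] (n e D : ℕ), 400 ≤ n → 2 ≤ e → ∀ (S : Fin n → Kˣ) (T : Fin e → Fin n → Kˣ),
      Generic D S T → ∀ (w s R : ℕ) (f : MvPolynomial (Var n e) K), 1 ≤ w → Computes (torus S T) w s f →
      Many R (fun σ : Fin e → Equiv.Perm (Fin n) => ∃ u ∈ f.support, u.support = matching σ ∧ ∀ x, u x ≤ D) →
      2 ^ (e * n) ≤ (2 * R * (w * s) ^ 2) ^ 20 := by
    rintro K _ n e D hn he S T ht w _ R f hw ⟨G, p, m, hc, hf, rfl⟩ hR
    have hR' : Many R (fun σ : Fin e → Equiv.Perm (Fin n) => ∃ u, MvPolynomial.coeff u f ≠ 0 ∧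
        u.support = univ.image (Pool.Agent.Helper1x.EM.cell σ) ∧ ∀ x, u x ≤ D) := by
      refine hR.mono fun σ hσ => ?_
      obtain ⟨u, hu1, hu2, hu3⟩ := hσ
      exact ⟨u, MvPolynomial.mem_support_iff.1 hu1, hu2, hu3⟩
    obtain ⟨hc', hE⟩ := Pool.Agent.Helper1x.EH.split_circuit (c := Pool.Agent.Helper1x.EC.cof S T) hw hc
    refine (Pool.Agent.Helper1x.EH.lowerM (D := D) (S := S) (T := T) Pool.Agent.Helper1x.EM.t_WTA
      Pool.Agent.Helper1x.EM.t_WTB Pool.Agent.Helper1x.EM.t_CNA Pool.Agent.Helper1x.EM.t_CNB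
      Pool.Agent.Helper1x.EM.t_NMA Pool.Agent.Helper1x.EM.t_NMB hn he ht hc' (hE f hf) (hR'.le _)).trans ?_
    exact Nat.pow_le_pow_left (Nat.mul_le_mul_left _ (Nat.pow_le_pow_left
      (Pool.Agent.Helper1x.EH.split_size hw G m) 2)) 20
  have hlow : ∀ (K : Type) [Field K] (v : AbsoluteValue K ℝ) (n e D : ℕ), 400 ≤ n → 2 ≤ e → ∀ (S : Fin n → Kˣ)
      (T : Fin e → Fin n → Kˣ), Generic D S T → ∀ (w s R : ℕ) (f : MvPolynomial (Var n e) K), 1 ≤ w →
      Computes (torus S T) w s f → (∀ x, f.degreeOf x ≤ D) →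
      Many R (fun σ : Fin e → Equiv.Perm (Fin n) => value f (matching σ) ≠ 0 ∧
        ∀ Y, Y ⊂ matching σ → 2 ^ n * v (value f Y) ≤ v (value f (matching σ))) →
      2 ^ (e * n) ≤ (2 * R * (w * s) ^ 2) ^ 20 := by
    intro K _ v n e D hn he S T ht w s R f hw hf hD hR
    refine hmon K n e D hn he S T ht w s R f hw hf (hR.mono fun σ hσ => ?_)
    obtain ⟨h1, h2⟩ := hσ
    obtain ⟨u, hu, hu'⟩ := Pool.Agent.Helper1x.EH.mob_abs v f (matching σ) (by rw [card_matching]; exact h2) h1
    exact ⟨u, hu, hu', fun x => (MvPolynomial.monomial_le_degreeOf x hu).trans (hD x)⟩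
  refine ⟨hmon, hlow, ?_, ?_, ?_, ?_, ?_, ?_, ?_, ?_⟩
  · rintro K _ v n e k hk he ι S T w _ f hw ⟨G, p, m, hc, hf, rfl⟩ hD hv
    obtain ⟨D, ht, hR⟩ := reduce v ι hD hv
    obtain ⟨hc', hE⟩ := Pool.Agent.Helper1x.EH.split_circuit (c := blockU ι S T) hw hc
    have h1 := hmon K k e D hk he S T ht 1 _ 1 _ le_rfl ⟨G * w, _, _, Pool.Agent.Helper1x.EH.toR
      (Pool.Agent.Helper1x.EH.t_BLA K n e k ι S T (G * w) _ _ hc'),
      Pool.Agent.Helper1x.EC.sHom_earlier ι _ (G * w) (hE f hf), rfl⟩ hR
    rw [mul_one, one_mul] at h1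
    exact h1.trans (Nat.pow_le_pow_left (Nat.mul_le_mul_left _ (Nat.pow_le_pow_left
      (Pool.Agent.Helper1x.EH.split_size hw G m) 2)) 20)
  · intro K _ v n e k a N ha ha3 haN ι S T w G p m hw hc hm f hf hD hv
    obtain ⟨D, ht, hR⟩ := reduce v ι hD hv
    have hR' : Many 1 (fun σ : Fin e → Equiv.Perm (Fin k) => ∃ u,
        MvPolynomial.coeff u (Pool.Agent.Helper1x.EC.sHom ι f) ≠ 0 ∧
        u.support = univ.image (Pool.Agent.Helper1x.EM.cell σ) ∧ ∀ x, u x ≤ D) := by
      refine hR.mono fun σ hσ => ?_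
      obtain ⟨u, hu1, hu2, hu3⟩ := hσ
      exact ⟨u, MvPolynomial.mem_support_iff.1 hu1, hu2, hu3⟩
    obtain ⟨hc', hE⟩ := Pool.Agent.Helper1x.EH.split_circuit (c := blockU ι S T) hw hc
    have h1 := Pool.Agent.Helper1x.EH.lowerQ (D := D) (S := S) (T := T) Pool.Agent.Helper1x.EM.t_WTA
      Pool.Agent.Helper1x.EM.t_CNA ha ha3 haN ht (Pool.Agent.Helper1x.EH.t_BLA K n e k ι S T (G * w) _ _ hc')
      (Pool.Agent.Helper1x.EH.mS_le hw hm)
      (Pool.Agent.Helper1x.EC.sHom_earlier ι _ (G * w) (hE f hf)) (hR'.le _)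
    rwa [one_mul, mul_comm] at h1
  · intro K _ n e k ι a G p hp hf
    obtain ⟨p', h1, h2⟩ := Pool.Agent.Helper1x.EC.t_HOM K n e k ι a G p hp hf
    exact ⟨p', fun S T => Pool.Agent.Helper1x.EH.toR (Pool.Agent.Helper1x.EH.lift (h1 S T)), h2⟩
  · intro K _ n e hn he
    obtain ⟨G, p, h1, h2, h3⟩ := Pool.Agent.Helper1x.EC.t_UP K n e hn he
    exact ⟨G, p, h1, fun S T => Pool.Agent.Helper1x.EH.toR (Pool.Agent.Helper1x.EH.lift (h2 S T)), h3⟩
  · intro K _ n e
    exact ⟨degree_form, value_form⟩
  · intro K _ _ n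
    obtain ⟨ξ, hξ⟩ := Pool.Agent.Helper1x.EM.t_DTB K n
    refine ⟨fun _ => (edm ξ).det, fun S T => ⟨edmonds ξ S T, edmonds_det ξ S T 0⟩, degree_edm ξ, fun Y => ?_⟩
    rw [value_edm, hξ, exists_matching]
  · intro K _ _ n e D
    exact Pool.Agent.Helper1x.EM.t_GEM K n e D
  · intro K _ _ n e
    exact Pool.Agent.Helper1x.EM.t_GEI K n e

end Pool.Agent.Results.MP_71c844_lc.EquivariantCircuits
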