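import Pool.Agent.H5Lin.Final
import Pool.Agent.H5Lin.FreeApp

/-!
# Flip invariant circuits with linear algebra gates: the characteristic decides

An instance of the constraint satisfaction problem of a finite family `Γ` of Boolean relations is a
set of constraints, in which a relation of `Γ` is applied to literals. The natural symmetry is to flip
(negate) variables. Known exponential lower bounds for circuits with this symmetry concern symmetric
gates (gates whose value depends only on the multiset of the labelled values of the wires), and the
reason is that such circuits cannot solve linear systems over the field with two elements. We add
gates for linear algebra: a matrix gate computes any function of a square matrix over a field which is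
invariant under orthogonal changes of basis (the rank, all the coefficients of the characteristic
polynomial, in particular the determinant, the spectrum, the elementary divisors ...). Its entries are
values of other gates. The symmetry permutes the rows and the columns of the matrix (and the gates
which compute the entries) simultaneously.

(1) If all the fields have characteristic different from two (also different fields in one circuit,
finite or infinite), then matrix gates do not help: for every `Γ` with `Parity Γ` (for example for
`k`-SAT with `k ≥ 3`), circuits with symmetric gates and matrix gates on which a group `U` of flips
acts, and which distinguish instances with at least `2 ^ (n - dim U)` solutions from instances without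
any solution, have size at least `2 ^ ⌊dim U / c⌋`.

(2) `Parity Γ` holds for `k`-SAT iff `k ≥ 3`, for `k`-NAE-SAT iff `k ≥ 4`, and for systems of linear
equations with `k` variables per equation iff `k ≥ 3`.

(3) For linear systems the assumption on the characteristic is necessary: with two matrix gates over
the field with two elements, which compute the size of the kernel, every property of the number of
solutions of linear systems with `k` variables per equation can be decided by a circuit of size
`3 (2 n) ^ k + 6 n + 7` on which all the flips act.

(4) For all other `Γ` it is necessary as well, unless there are lower bounds for general circuits:
with matrix gates over the field with two elements the symmetry costs only a polynomial. Every Boolean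
circuit for a property of instances that is invariant under flips (for example satisfiability) can be
replaced by a circuit on which all the flips act, with polynomially many additional gates, and the
additional gates are kernel gates over the field with two elements or have a bounded number of wires.
So in characteristic two `NP ⊆ P/poly` is equivalent to the existence of equivariant circuits of
polynomial size for `3`-SAT, while in all other characteristics there are unconditional exponential
lower bounds.

(5) The rank and the characteristic polynomial are invariant under orthogonal changes of basis.

Proof idea of (1). The instances are systems of equations with sparse random matrices, and the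
right-hand sides do not matter for circuits with few gates. For symmetric gates this follows since a
gate with a small orbit depends only on few sums of right-hand sides. A matrix gate is more difficult,
because its rows can have large orbits under the stabiliser of the gate even if there are few rows.
But the stabiliser is an elementary abelian two-group, which can be diagonalised over a field of
characteristic different from two (after an orthogonal change of basis, without roots): the rows are
replaced by characters of orbits, and the matrix becomes a block matrix, with one block for each
character, whose entries are signed sums of the old entries over small orbits. If the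
right-hand sides are changed, then each block is multiplied by signs of the two basis vectors, which is
an orthogonal change of basis. For this the few characters which occur must be linearly independent
modulo the rows of the random matrix in a suitable sense (all sums of two of them), so that the signs
exist. In characteristic two there are no such characters.

Proof idea of (4). The circuit first computes a canonical form of the instance under flips, one scope
after the other: whether a pattern on the next scope can be reached by flips that are compatible with
the choices made before is a system of linear equations over the field with two elements, whose
equations are permuted by the flips. The given circuit is applied to the canonical form.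
-/

set_option autoImplicit false

namespace Pool.Agent.Results.MP_71c844_lc.LinearAlgebraGates

open Matrix Pool.Agent.H5Sym Pool.Agent.H5Dich Pool.Agent.H5Lin

universe u

/-- **Theorem.** Let the instances be the sets of constraints over the variables `Fin n`, which are
relations of a finite family `Γ` of Boolean relations applied to literals. The circuits have symmetric
gates (arbitrary functions of the multiset of the labelled values of the wires) and matrix gates
(functions of square matrices over fields which are invariant under orthogonal changes of basis), with
values in any set `D`.
(1) If `Parity Γ`, then for some `c > 0` the following holds for all `n` and all subspaces `U` of the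
space of flips: if the group `U` acts on a circuit in which no matrix gate uses a field of
characteristic two, and the circuit accepts the instances with at least `2 ^ (n - dim U)` solutions and
rejects the instances without a solution, then it has at least `2 ^ ⌊dim U / c⌋` gates and rows of
matrices.
(2) `Parity` holds for `k`-SAT iff `k ≥ 3`, for `k`-NAE-SAT iff `k ≥ 4`, for linear systems with `k`
variables in each equation iff `k ≥ 3`.
(3) For all `k`, `n` and properties `p` of natural numbers there is a circuit with
`3 (2 n) ^ k + 6 n + 7` gates and rows, on which the group of all flips acts, which decides whether the
number of solutions of a linear system has the property `p`, and whose matrix gates compute the size of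
the kernel of matrices over the field with two elements.
(4) For every `Γ` there is a `c` such that for all `n` and all properties of the instances that are
invariant under flips, every Boolean circuit `C` that decides the property can be replaced by a
circuit of size at most `|C| + c (n + 1) ^ c` that decides it, on which the group of all flips acts, and
whose gates compute the size of the kernel of matrices over the field with two elements, or have at most
`c` wires, or compute the same functions as the gates of `C`.
(5) The characteristic polynomial and the rank are invariant under orthogonal changes of basis. -/
theorem result :
    (∀ Γ : Lang, Parity Γ → ∃ c : ℕ, 0 < c ∧ ∀ (n : ℕ) (U : Submodule (ZMod 2) (Fin n → ZMod 2))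
      (D : Type u) (C : LCircuit.{0, u} (Con Γ (Fin n)) D) [Finite C.Gate] (inp : Bool → D)
      (acc : D → Prop), C.Action (fun v : U => flipC v.1) → C.OddFields →
      (∀ φ : Con Γ (Fin n) → Bool, 2 ^ (n - Module.finrank (ZMod 2) U) ≤ Nat.card (sol (ones φ)) →
        acc (C.eval (inp ∘ φ) C.out)) →
      (∀ φ : Con Γ (Fin n) → Bool, sol (ones φ) = ∅ → ¬ acc (C.eval (inp ∘ φ) C.out)) →
      2 ^ (Module.finrank (ZMod 2) U / c) ≤ C.size) ∧
    ((∀ k, Parity (kSat k) ↔ 3 ≤ k) ∧ (∀ k, Parity (nae k) ↔ 4 ≤ k) ∧
      ∀ k, Parity (xor k) ↔ 3 ≤ k) ∧
    (∀ (k n : ℕ) (p : ℕ → Prop), ∃ C : LCircuit.{0, 0} (Con (xor k) (Fin n)) ℕ,
      Nonempty (C.Action fun u : Fin n → ZMod 2 => flipC u) ∧ Finite C.Gate ∧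
      C.size = 3 * (2 * n) ^ k + 6 * n + 7 ∧ (∀ g F, C.label g = .mat F → F = kerFun) ∧
      ∀ φ : Con (xor k) (Fin n) → Bool,
        C.eval ((fun b : Bool => if b then 1 else 0) ∘ φ) C.out = 1 ↔ p (Nat.card (sol (ones φ)))) ∧
    (∀ Γ : Lang, ∃ c : ℕ, ∀ (n : ℕ) (P : (Con Γ (Fin n) → Bool) → Prop),
      (∀ φ u, P (φ ∘ flipC u) ↔ P φ) →
      ∀ (C : Circuit.{0, 0, 0} (Con Γ (Fin n)) Bool) [Finite C.Gate],
      (∀ φ, C.eval φ C.out = true ↔ P φ) →
      ∃ C' : LCircuit.{0, 0} (Con Γ (Fin n)) ℕ,
        Nonempty (C'.Action fun u : Fin n → ZMod 2 => flipC u) ∧ Finite C'.Gate ∧
        KernelExtension C C' c ∧
        (∀ φ : Con Γ (Fin n) → Bool,
          C'.eval ((fun b : Bool => if b then 1 else 0) ∘ φ) C'.out = 1 ↔ P φ) ∧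
        C'.size ≤ Nat.card C.Gate + c * (n + 1) ^ c) ∧
    ∀ (K : Type) [Field K] (n : ℕ) (A M : Matrix (Fin n) (Fin n) K), A * Aᵀ = 1 →
      (Aᵀ * M * A).charpoly = M.charpoly ∧ (Aᵀ * M * A).rank = M.rank := by
  refine ⟨fun Γ h => ?_, ⟨parity_kSat, parity_nae, parity_xor⟩, fun k n p => ?_, freeCSP,
    fun K _ n A M hA => invariants K n A M hA⟩
  · obtain ⟨c, hc, h1⟩ := lowerL (parity_iff.1 h)
    exact ⟨c, hc, fun n U D C _ inp acc act => h1 n U D C inp acc act⟩
  · refine ⟨circ k n p, ⟨circAct k n p⟩, inferInstance, circ_size k n p, ?_, fun φ => eval_circ p φ⟩
    rintro (t | b | b | b) F h
    · cases h
    · cases h
    · injection h with h
      exact h.symm
    · cases h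

end Pool.Agent.Results.MP_71c844_lc.LinearAlgebraGates
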