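import Pool.Agent.H5Ref.Final3
import Pool.Agent.H5Ref.Examples

/-!
# Refuting random constraint satisfaction problems: a sharp trade-off

Let `R` be a Boolean predicate of arity `k`, for example a clause or a parity. We consider random
instances of the satisfaction problem for `R` with `m` random scopes: are they satisfiable? If
`m ≥ C n` then a random instance is not satisfiable, and not even approximately, but it is widely
believed (Feige, Alekhnovich, ...) that no efficient algorithm can certify this unless `m ≥ n ^ (k / 2)`,
where spectral algorithms succeed, and that for smaller `m` there is a trade-off between the running time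
and `m`. This is much stronger than `P ≠ NP`.

We prove both sides of the trade-off for circuits that have arbitrary symmetric gates and arbitrary
linear algebra gates (rank, determinant, characteristic polynomial, spectrum, ... over any fields of
characteristic different from two), on which the group of the flips of variables acts, for all
predicates `R` which contain a coset of the even vectors, for example `k`-XOR and `k`-SAT: size `2 ^ κ`
is not sufficient if `m ≤ c κ (n / κ) ^ (k / 2)`, and size `n ^ (C l)` is sufficient if
`m ≥ C l (n / l) ^ (k / 2) log n`. More generally, the lower bound holds for all predicates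
which contain a coset such that all equations that hold on it have at least `τ` variables, with `τ`
instead of `k` in the exponent. For all but a small fraction of the hypergraphs of scopes the output
does not depend on the right-hand sides at all, although the instance is satisfiable for some and far
from satisfiable for almost all right-hand sides. The upper bound holds for every hypergraph if `k` is
even, and for random ones if `k` is odd, and it only uses AND, OR and NOR gates.

Proof ideas. Lower bound: a gate or row of a matrix with a small orbit sees only few sums of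
right-hand sides. For a random hypergraph all sums of boundedly many rows that could be seen by a pair of
them are short, by a union bound over the pairs, and so they are harmless: a change of the right-hand
sides is a real automorphism locally, and a change of basis by signs for the matrix gates.
Upper bound for even `k`: consider the graph on the set `S` of the vectors whose weights in the `k` parts
are `l` or `l + 1`, each for half of the parts, where two vectors are adjacent if they differ by the scope
of a constraint. The circuit tests whether some `(y, 0)` and `(y, 1)` are connected in the double cover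
given by the right-hand sides. The accepted right-hand sides form a subspace. If its dimension is `d`, then
potentials define a map from the graph to the cube of dimension `d`, and the edge isoperimetric
inequality bounds `d` by `log |S|` times the inverse of the density of the edges. For odd `k` the graph
has the vertices `S × S`, where `S` belongs to the parts `1, …, k - 1`, and an edge is given by two
constraints with the same variable in the part `0`. If there are not many coincidences, which is the case
for random scopes, then one can choose few of the free rows and prune the edges such that each free row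
belongs to at most one edge at each vertex.
-/

set_option autoImplicit false

namespace Pool.Agent.Results.MP_71c844_lc.RandomRefutation

open Pool.Agent.H5Sym Pool.Agent.H5Dich Pool.Agent.H5Lin Pool.Agent.H5Ref

universe u

/-- **Theorem.** Let `f` be the (random) scopes of `m` rows with `k` variables, the variable number `c`
of each row from the part `c` of `k * P` variables, and `w` the right-hand sides: for the row `j` the
instance `inst R q M ι f w` has all the constraints whose signs are in `q + w j + M`, where `M` is a
subspace such that all nonzero equations that hold on `M` have at least `τ` variables.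
(1) Let `4 ^ (τ + k + 1) * λ ^ 2 * κ ^ (τ - 2) * m ^ 2 ≤ P ^ τ`, that is,
`m ≤ (κ / λ) * (P / κ) ^ (τ / 2) / 2 ^ (τ + k + 1)`. Let a group `U` of flips act on a circuit with
symmetric gates and matrix gates (no field of characteristic two), where `U` induces all flips of the
`k * P` variables. If the circuit has at most `2 ^ (κ - 1)` gates and rows, then for all but a fraction
`1 / λ` of the scopes `f` its output is the same for all right-hand sides.
(2) If `q + M` is contained in `R`, the instance is satisfiable for the right-hand sides given by an
assignment. For different scopes and all but a fraction `2 ^ (k * P) * exp (-ε ^ 2 * m / 4)` of the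
right-hand sides, every assignment satisfies less than `|R| / 2 ^ k + ε` of the constraints.
(3) Let `k ≥ 2`, `1 ≤ l ≤ P / 2`, and let `R` contain the coset of `q` of the even vectors, but not all
vectors. There is a circuit with at most `P ^ (20 * k ^ 2 * l)` gates, which compute OR, AND and NOR, on
which all flips act, which accepts all satisfiable instances for `R`, and for all
`m ≥ 10 k l * (2 P / l) ^ (k / 2) * log₂ P` and all scopes `f` except for a fraction `1 / λ` it accepts
`inst R q M ι f w` (with `M` the even vectors) only for a fraction `2 ^ (-m / 2)` of the right-hand sides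
`w`; here `k` is even and `λ` is arbitrary (so that there are no exceptions), or
`3200 (k λ log₂ P) ^ 2 * 4 ^ k * l ≤ P`.
(4) For the vectors with even weight `τ = k` is possible in (1), and their cosets of odd weight are
contained in the set of the assignments which satisfy a clause, or not-all-equal for even `k`. -/
theorem result :
    (∀ (k τ P m κ lam : ℕ) (R : Set (Fin k → ZMod 2)) (q : Fin k → ZMod 2)
      (M : Submodule (ZMod 2) (Fin k → ZMod 2)) (V : Type) [Finite V] (ι : Fin k × Fin P ↪ V)
      (U : Submodule (ZMod 2) (V → ZMod 2)) (D : Type u) (C : LCircuit.{0, u} (Con (pred R) V) D)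
      [Finite C.Gate] (inp : Bool → D), 2 ≤ τ → 1 ≤ κ → 1 ≤ lam →
      (∀ g : Fin k → ZMod 2, g ≠ 0 → (∀ y ∈ M, ∑ c, g c * y c = 0) → τ ≤ {c | g c ≠ 0}.ncard) →
      4 ^ (τ + k + 1) * lam ^ 2 * κ ^ (τ - 2) * m ^ 2 ≤ P ^ τ →
      (∀ y : Fin k × Fin P → ZMod 2, ∃ u ∈ U, ∀ p, u (ι p) = y p) →
      (C.Action fun u : U => flipC u.1) → C.OddFields → C.size ≤ 2 ^ (κ - 1) →
      lam * Nat.card {f : Fin k → Fin m → Fin P // ∃ w w',
        C.eval (inp ∘ inst R q M ι f w) C.out ≠ C.eval (inp ∘ inst R q M ι f w') C.out} ≤
        P ^ (k * m)) ∧
    (∀ (k P m : ℕ) (R : Set (Fin k → ZMod 2)) (q : Fin k → ZMod 2)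
      (M : Submodule (ZMod 2) (Fin k → ZMod 2)) (V : Type) (ι : Fin k × Fin P ↪ V)
      (f : Fin k → Fin m → Fin P),
      ((∀ l ∈ M, q + l ∈ R) → ∀ y : V → ZMod 2,
        y ∈ sol (ones (inst R q M ι f fun j c => y (ι (c, f c j))))) ∧
      (0 < k → (∀ j j', (∀ c, f c j = f c j') → j = j') → ∀ ε : ℝ, 0 < ε → ε ≤ 1 →
        (Nat.card {w // ¬ ValueLT (R.ncard / 2 ^ k + ε) (inst R q M ι f w)} : ℝ) ≤
          2 ^ (k * P) * Real.exp (-(ε ^ 2 / 4 * m)) * (2 ^ k) ^ m)) ∧
    (∀ (k P l : ℕ) (R : Set (Fin k → ZMod 2)) (q : Fin k → ZMod 2), 2 ≤ k → R ≠ Set.univ →
      (∀ v ∈ evenM k, q + v ∈ R) → 1 ≤ l → 2 * l ≤ P →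
      ∃ C : LCircuit.{0, 0} (Con (pred R) (Fin k × Fin P)) Bool,
        Nonempty (C.Action fun u : Fin k × Fin P → ZMod 2 => flipC u) ∧ Finite C.Gate ∧
        (∀ g, (∃ t, C.label g = .input t) ∨ C.label g = .sym orB ∨ C.label g = .sym andB ∨
          C.label g = .sym norB) ∧
        C.size ≤ P ^ (20 * k ^ 2 * l) ∧
        (∀ φ, (sol (ones φ)).Nonempty → C.eval φ C.out = true) ∧
        ∀ m lam : ℕ, (10 * k * l * Real.logb 2 P) ^ 2 * (2 * P / l : ℝ) ^ k ≤ (m : ℝ) ^ 2 →
          (Even k ∨ 3200 * (k * lam * Real.logb 2 P) ^ 2 * 4 ^ k * l ≤ P) →
          lam * Nat.card {f : Fin k → Fin m → Fin P //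
            2 ^ (-(m : ℝ) / 2) * (2 ^ k) ^ m < (Nat.card {w //
              C.eval (inst R q (evenM k) (.refl _) f w) C.out = true} : ℝ)} ≤ P ^ (k * m)) ∧
    ∀ k : ℕ,
      (∀ g : Fin k → ZMod 2, g ≠ 0 → (∀ y ∈ evenM k, ∑ c, g c * y c = 0) →
        k ≤ {c | g c ≠ 0}.ncard) ∧
      ∀ q : Fin k → ZMod 2, ∑ j, q j = 1 → ∀ l ∈ evenM k,
        q + l ∈ {x : Fin k → ZMod 2 | ∃ j, x j = 1} ∧
        (Even k → q + l ∈ {x : Fin k → ZMod 2 | ∃ j j', x j ≠ x j'}) :=
  ⟨fun k τ P m κ lam R q M V _ ι U D C _ inp hτ hκ hlam hM hP hι act hodd hC =>
      avgLower R q M ι U hι C hodd inp act hκ hlam hτ hM hP hC,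
    fun k P m R q M V ι f => ⟨fun hqM y => sol_zero R q M hqM ι f y,
      fun hk hf ε h0 h1 => value_card hk R q M ι f hf ε h0 h1⟩,
    fun k P l R q hk hR hq hl hP => upperF k P l R q hk hR hq hl hP,
    fun k => ⟨fun g hg h => evenM_dist g hg h, fun q hq l hl =>
      ⟨coset_sat q hq l hl, fun hk => coset_nae hk q hq l hl⟩⟩⟩

end Pool.Agent.Results.MP_71c844_lc.RandomRefutation
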